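import Pool.Agent.Helper20.RL.St5
import Pool.Agent.Helper68.EP.Defs

/-!
# Project EP (MP_cb927e_an): definitions for parts C (core estimates) and L (Fourier analysis, domination, the theorem)
-/

set_option autoImplicit false

open MeasureTheory Set Filter Topology
open scoped ENNReal RealInnerProductSpace

namespace Pool.Agent.Helper61.EP

open Pool.Agent.Helper68.LM (Pl BB Bd Av HL ft fm DQ)
open Pool.Agent.Helper20.RG
open Pool.Agent.Helper20.RL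
open Pool.Agent.Helper68.EP (Fb DQ3 Par Dat Sy q0 q1 DD Fo)

/-! ## Part C -/

/-- numerical situation: `m₁` hits, threshold `η`, loss `2^(δu)` -/
def Nn (u : ℕ) (δ η m₁ : ℝ) : Prop :=
  0 < η ∧ η ≤ 1 ∧ (2 : ℝ) ^ (-(δ * u)) ≤ m₁ * η ∧ m₁ ≤ (2 : ℝ) ^ u

/-- the exponents (for given `1 < p < 2` such `s`, `γ` exist if and only if `3 < p² + p`) -/
def Ex2 (p s γ : ℝ) : Prop :=
  1 < s ∧ s < p ∧ p < 2 ∧ 0 < γ ∧ γ < p - 1 ∧ 2 + γ - 3 * γ / (2 * p) - s / 2 < p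

/-- the density: `8·2^(-su)` -/
noncomputable def D8 (s : ℝ) (u : ℕ) : ℝ := 8 * (2 : ℝ) ^ (-(s * u))

/-- the sum of those values which are less than `t` -/
noncomputable def trS (N : ℕ) (t : ℝ) (v : ℕ → ℝ) : ℝ :=
  ∑ j ∈ Finset.range N, if v j < t then v j else 0

/-! ## Part L -/

/-- measure of the parameters whose slope is within `2^(-i)` of `θ` -/
noncomputable def ellf (τ : ℝ → ℝ) (θ : ℝ) (i : ℕ) : ℝ :=
  (volume {t : ℝ | t ∈ Icc (0 : ℝ) 1 ∧ |τ t - θ| ≤ (2 : ℝ) ^ (-(i : ℤ))}).toReal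

/-- the condition `(G_p)` for a graph -/
def GapP (A p : ℝ) (τ : ℝ → ℝ) : Prop :=
  ∀ (θ : ℝ) (n : ℕ), ∑ i ∈ Finset.range n, ellf τ θ (i + 1) ^ p ≤ A

/-- the data of the curve -/
noncomputable def dat (τ : ℝ → ℝ) : Dat where
  ell := ellf τ
  sl := fun u j => τ (tm u j)
  fl := mm τ

/-- the set where `f` has height `2^(l+v)` -/
def Ev (f : Pl → ℝ) (l : ℤ) (v : ℕ) : Set Pl :=
  {x | (2 : ℝ) ^ (l + (v : ℤ)) ≤ f x ∧ f x < (2 : ℝ) ^ (l + (v : ℤ) + 1)}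

/-- the chord operators of class `u` -/
noncomputable def Yc (c : Pl) (φ τ : ℝ → ℝ) (u : ℕ) (k : ℤ) (g : Pl → ℝ) (x : Pl) (j : ℕ) : ℝ :=
  Y (τ (tm u j)) (ce c φ u j) (mm τ u j) (1 / (2 : ℝ) ^ u) k g x

/-- the difference operators of class `u` with segments of length `2^k` -/
noncomputable def Zc (c : Pl) (φ τ : ℝ → ℝ) (u : ℕ) (k : ℤ) (g : Pl → ℝ) (x : Pl) : ℝ :=
  (1 / (2 : ℝ) ^ u) * ∑ j ∈ Finset.range (2 ^ u), Z (τ (tm u j)) (ce c φ u j) (mm τ u j)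
    (mm τ (u - 1) (j / 2)) ((2 : ℝ) ^ 0) k g x

/-- the remaining error of class `u` -/
noncomputable def Ec (c : Pl) (φ τ : ℝ → ℝ) (u : ℕ) (k : ℤ) (g : Pl → ℝ) (x : Pl) : ℝ :=
  Sa c φ τ u k g x - Sa c φ τ (u - 1) k g x - Zc c φ τ u k g x

/-- the sum of the absolute values of the multipliers of class `u` -/
noncomputable def am (c : Pl) (φ τ : ℝ → ℝ) (u : ℕ) (ξ : Pl) : ℝ :=
  ∑ j ∈ Finset.range (2 ^ u), ‖Zh (τ (tm u j)) (ce c φ u j) (mm τ u j) (mm τ (u - 1) (j / 2))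
    ((2 : ℝ) ^ 0) ξ‖

/-- `f` cut to the heights between `2^l` and `2^(l+u)` -/
noncomputable def cutf (f : Pl → ℝ) (l : ℤ) (u : ℕ) : Pl → ℝ :=
  {x | (2 : ℝ) ^ l ≤ f x ∧ f x < (2 : ℝ) ^ (l + (u : ℤ))}.indicator f

/-- the points at which the heights `E_v`, `v ≥ u₀`, have small density in all squares, and the positive part is large for
some scale `k` -/
def Pos (c : Pl) (φ τ : ℝ → ℝ) (s Cf a c₁ : ℝ) (u₀ : ℕ) (f : Pl → ℝ) (l : ℤ) : Set Pl :=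
  {x | (∀ v : ℕ, u₀ ≤ v → Loc Cf (a * (2 : ℝ) ^ (-(s * v))) ((Ev f l v).indicator 1) x) ∧
    ∃ k : ℤ, ∃ V : ℕ, c₁ ≤ ∑ v ∈ Finset.Ico u₀ V, ∑ j ∈ Finset.range (2 ^ v),
      Yc c φ τ v k ((Ev f l v).indicator 1) x j}

end Pool.Agent.Helper61.EP
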