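import Pool.Agent.Helper61.EP.Defs

/-!
# Project EP (MP_cb927e_an), part C: the core estimates of project RL with Slo exponent `p` and density `2^(-su)`, `s < p`

`N = 2^u`, `D8 s u = 8·2^(-su)`.  These statements are variants of PNA, PNB, PNW, PNC, PND, PCT, PCR, PCS, PON of project RL
(`Pool.Agent.Helper20.RL.St4`, `St5`, proved; see `Pool.Agent.Helper20.RL.Asm` for the names of all the proofs).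
Two changes: the Slo exponent `σ` of RL is now `p` (no room), and the density exponent `q` of RL is now `s < p`.  In exchange the number of hits is large,
`m₁ ≥ 2^(e u)`, or the number of scales is small, `K ≤ Cf 2^((p-ε)u)`; and all polynomial losses are replaced by `2^(δu)`.
-/

set_option autoImplicit false

open MeasureTheory Set Filter Topology
open scoped ENNReal RealInnerProductSpace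

namespace Pool.Agent.Helper61.EP

open Pool.Agent.Helper68.LM (Pl BB Bd Av HL ft fm DQ)
open Pool.Agent.Helper20.RG
open Pool.Agent.Helper20.RL
open Pool.Agent.Helper68.EP (Fb DQ3)

/-! ## Numbers -/

/-- CEX (about 60 lines).  `t = p - 1`: with `γ = p - 1 - d`, `s = p - d`: `2 + γ - 3γ/(2p) - s/2 - p = (3/(2p) - 1/2 - p/2) + d (3/(2p) - 1/2)` and the first bracket is `(3 - p - p²)/(2p) < 0`, `0 < 3/(2p) - 1/2 ≤ 1`.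
So any `d > 0` with `d < (p² + p - 3)/(2p)`, `2d < p - 1`, `d ≤ d₀` works.  Hypotheses: none. -/
def StCEX : Prop :=
  ∀ p d₀ : ℝ, 1 < p → p < 2 → 3 < p ^ 2 + p → 0 < d₀ → ∃ s γ : ℝ, p - d₀ ≤ s ∧ Ex2 p s γ

/-- CNA (about 60 lines).  `1/(m₁ η) ≤ 2^(δu)`, `2^b ≤ 2^(γu)`: the left side is at most `70·10^6 u^5 2^((δ+γ+1)u)`, `ε = (p-1-γ-δ)/2`, `u^5 ≤ C 2^(εu)`.  (As PNA.)  Hypotheses: none. -/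
def StCNA : Prop :=
  ∀ p γ δ : ℝ, γ + 1 + δ < p → ∃ C ε : ℝ, 0 < C ∧ 0 < ε ∧ ∀ (u b : ℕ) (η m₁ : ℝ), 1 ≤ u → Nn u δ η m₁ →
    (b : ℝ) ≤ γ * u → 70 / (m₁ * η) * (10 ^ 6 * (u : ℝ) ^ 5 * 2 ^ b) * (2 : ℝ) ^ u ≤
      C * (2 : ℝ) ^ ((p - ε) * u)

/-- CNB (about 80 lines).  `1/η ≤ 2^(δu) m₁ ≤ 2^((1+δ)u)`.  `2000·8·2^(-su) ≤ 2^(-(1+δ)u)` for large `u` (`s > 1 + δ`); `2^(-6u) ≤ 8·2^(-su)` (`s < 2`); `12800·10752·8·2^((1-s)u)/η ≤ C 2^((1-s+δ)u) m₁ ≤ m₁` for large `u`.  (As PNB.)  Hypotheses: none. -/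
def StCNB : Prop :=
  ∀ s δ : ℝ, 1 + δ < s → s < 2 → 0 ≤ δ → ∃ u₀ : ℕ, ∀ (u : ℕ) (η m₁ : ℝ), u₀ ≤ u → 1 ≤ u → Nn u δ η m₁ →
    2000 * D8 s u ≤ η ∧ (2 : ℝ) ^ (-(6 * (u : ℤ))) ≤ D8 s u ∧ 12800 * (10752 * 2 ^ u * D8 s u / η) ≤ m₁

/-- CNW (about 220 lines), the main numbers.  `W = min (10^6 u^5 2^b) K`, `n = ns u b A p ≤ 1 + A 2^(u - b/p)` (`2^(b+1) u ≥ 2^b`), `n^(3/2) ≤ 2 (1 + (A 2^(u-b/p))^(3/2))`.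
First clause.  Let `B = min(b, (p-ε)u)`; in both cases `W ≤ 10^6 u^5 Cf 2^B`.  `W n ≤ 10^6 u^5 Cf (2^B + A 2^(u + B(1-1/p)))` (`2^(-b/p) ≤ 2^(-B/p)`), exponents at most `(p-ε)u` and `(p - ε(1-1/p))u`.
`W 2^((1-s)u/2) ≤ 10^6 u^5 Cf 2^((p - (s-1)/2)u)`.  `W (2^(u-b/p))^(3/2) 2^((1-s)u/2)`: if `b ≤ pu` the exponent is at most `b(1 - 3/(2p)) + 3u/2 + (1-s)u/2`, linear in `b ∈ [γu, pu]`: at the ends `(2 + γ - 3γ/(2p) - s/2)u` (`< pu` by Ex2) and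
`(p - (s-1)/2)u`; if `b > pu` then `2^(u-b/p) ≤ 1`, `W ≤ Cf 2^(pu)`, exponent `(p - (s-1)/2)u`.  `u^5 ≤ C 2^(ε'u)`.  Second clause (no condition on `b`, `K`): the same with `B = min(b, pu)`: `W n ≤ 10^6 u^5 Cf (1 + A) 2^(pu)`, `u^5 ≤ C 2^(κu)`.
(The proof of PNW, `Pool.Agent.Helper65.RL.M_PNW`, with its helper file, is close.)  Hypotheses: none. -/
def StCNW : Prop :=
  (∀ A p s γ ε Cf : ℝ, 0 ≤ A → Ex2 p s γ → 0 < ε → 1 ≤ Cf →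
    ∃ C ε' : ℝ, 0 < C ∧ 0 < ε' ∧ ∀ u b K : ℕ, 1 ≤ u → γ * u < b → (K : ℝ) ≤ Cf * (2 : ℝ) ^ (p * u) →
    ((b : ℝ) ≤ (p - ε) * u ∨ (K : ℝ) ≤ Cf * (2 : ℝ) ^ ((p - ε) * u)) →
    min (10 ^ 6 * (u : ℝ) ^ 5 * 2 ^ b) (K : ℝ) *
      (ns u b A p + (ns u b A p) ^ (3 / 2 : ℝ) * (2 : ℝ) ^ ((1 - s) / 2 * u)) ≤
      C * (2 : ℝ) ^ ((p - ε') * u)) ∧
  ∀ A p s γ κ Cf : ℝ, 0 ≤ A → Ex2 p s γ → 0 < κ → 1 ≤ Cf →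
    ∃ C : ℝ, 0 < C ∧ ∀ u b K : ℕ, 1 ≤ u → γ * u < b → (K : ℝ) ≤ Cf * (2 : ℝ) ^ (p * u) →
    min (10 ^ 6 * (u : ℝ) ^ 5 * 2 ^ b) (K : ℝ) *
      (ns u b A p + (ns u b A p) ^ (3 / 2 : ℝ) * (2 : ℝ) ^ ((1 - s) / 2 * u)) ≤
      C * (2 : ℝ) ^ ((p + κ) * u)

/-- CNC (about 200 lines), few directions.  `n = ns u b A p ≥ 1`.  If `2^(eu) ≤ m₁` and `2^(eu) ≥ 1000` then `m₁ < 200 n ≤ 200 (1 + A 2^(u-b/p))`, so for large `u` `2^(u-b/p) ≥ 2^(eu)/(400(A+1))`, `b ≤ p(1-e)u + p log₂(400(A+1)) ≤ (p - pe/2)u`.  So CNW (first clause) with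
`ε₂ = min(ε, pe/2)` applies: `W (n + n^(3/2) 2^((1-s)u/2)) ≤ C₂ 2^((p-ε₂')u)`.  Put `δ = ε₂'/8`, `ε' = ε₂'/4`.  `m₁ ≤ 1000 n`, `1/(m₁ η) ≤ 2^(δu)`, `1/η ≤ 2^(δu) m₁ ≤ 1000·2^(δu) n`, `2^u D8 = 8·2^((1-s)u) ≤ 8`:
`M1 κ u b A p D8 (η/2) = κ (n + 2^u D8·2/η + u √(n 2^u D8)·2/η) ≤ κ (n + 16000·2^(δu) n + 6000 u 2^(δu) n^(3/2) 2^((1-s)u/2)) ≤ 22000 κ u 2^(δu) (n + n^(3/2) 2^((1-s)u/2))`.  So the left side is at most `C u 2^(2δu) 2^((p-ε₂')u)`.  (As PNC.)  Hypotheses: hCNW. -/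
def StCNC : Prop :=
  ∀ A p s γ κ Cf ε e : ℝ, 0 ≤ A → Ex2 p s γ → 1 ≤ κ → 1 ≤ Cf → 0 < ε → 0 < e →
    ∃ (u₀ : ℕ) (δ₀ C ε' : ℝ), 0 < δ₀ ∧ 0 < C ∧ 0 < ε' ∧
    ∀ (δ : ℝ) (u b K : ℕ) (η m₁ : ℝ), 0 < δ → δ ≤ δ₀ → u₀ ≤ u → 1 ≤ u → Nn u δ η m₁ → γ * u < b →
    (K : ℝ) ≤ Cf * (2 : ℝ) ^ (p * u) →
    ((2 : ℝ) ^ (e * u) ≤ m₁ ∨ (K : ℝ) ≤ Cf * (2 : ℝ) ^ ((p - ε) * u)) →
    (m₁ < 1000 ∨ m₁ < 200 * ns u b A p) →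
    70 / (m₁ * η) * min (10 ^ 6 * (u : ℝ) ^ 5 * 2 ^ b) (K : ℝ) *
      (4 * M1 κ u b A p (D8 s u) (η / 2)) ≤ C * (2 : ℝ) ^ ((p - ε') * u)

/-- CND (about 220 lines), many directions.  `δ₀ = (s-1)/16`.  `T = 10752·2^u D8/η = 86016·2^((1-s)u)/η`, `n = ns u b A p ≥ 1`, `1/η ≤ 2^(δu) m₁ ≤ 2^((1+δ)u)`.  First term: `2^(-16u)/T·42/η = (42/86016) 2^(-16u) 2^((s-1)u) ≤ 2^(-15u)`, `W ≤ K ≤ Cf 2^(2u)`, `n ≤ (1 + A) 2^u`, so `M1 ≤ C u 2^(3u)`,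
product `≤ C u 2^(-10u) ≤ C`.  Second term: `T/(m₁³ η) = 86016·2^((1-s)u)/(η² m₁³) ≤ 86016·2^((1-s)u) 2^(2δu)/m₁`, and `(n/m₁) M1 ≤ κ (n²/m₁ + 16·2^((1-s)u) n/(m₁ η) + 6 u n^(3/2) 2^((1-s)u/2)/(m₁ η)) ≤ 30 κ u 2^(δu) (n + n^(3/2) 2^((1-s)u/2))` (`200 n ≤ m₁`, `1/(m₁ η) ≤ 2^(δu)`;
`M1 ≤ κ (n + 16·2^((1-s)u)/η + u √(8 n 2^((1-s)u))·2/η)`).  CNW (second clause, `κ = (s-1)/4`): total `≤ C u² 2^(3δu) 2^((1-s)u) 2^((p + (s-1)/4)u) ≤ C 2^((p - (s-1)/4)u)`.  (As PND.)  Hypotheses: hCNW. -/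
def StCND : Prop :=
  ∀ A p s γ κ C₄ Cf : ℝ, 0 ≤ A → Ex2 p s γ → 1 ≤ κ → 1 ≤ C₄ → 1 ≤ Cf →
    ∃ δ₀ C ε' : ℝ, 0 < δ₀ ∧ 0 < C ∧ 0 < ε' ∧
    ∀ (δ : ℝ) (u b K : ℕ) (η m₁ : ℝ), 0 < δ → δ ≤ δ₀ → 1 ≤ u → Nn u δ η m₁ → γ * u < b →
    (K : ℝ) ≤ Cf * (2 : ℝ) ^ (p * u) → 1000 ≤ m₁ → 200 * ns u b A p ≤ m₁ →
    ((1 / 2) ^ (16 * u) / (10752 * 2 ^ u * D8 s u / η) +
      u * C₄ * ns u b A p * (10752 * 2 ^ u * D8 s u / η) / m₁ ^ 3) * (42 / η) *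
      min (10 ^ 6 * (u : ℝ) ^ 5 * 2 ^ b) (K : ℝ) *
      (4 * M1 κ u b A p (D8 s u) (η / 2)) ≤ C * (2 : ℝ) ^ ((p - ε') * u)

/-! ## The core estimate -/

/-- CCT (about 300 lines), one class.  As PCT (module `Pool.Agent.Helper90.RL.M_PCT`), with `σ = p`, `D = D8 s u`.  `δ = min` of the `δ₀` of CNC and CND, `(s-1)/2` and `(p-1-γ)/2` (so that CNA and CNB apply), `δ ≤ 1`.
If `τ = 0`: LXM for every `k`, LPA with `b = 0` for every `j`, `vol(F ∩ ..) ≤ vol F`, CNA (`b = 0`).  Otherwise `τ = 16ub + l + 1`, `l < 16u`, `b ≤ 3u + 1`.  If `b ≤ γu` (then `b ≤ u`, so `τ ≤ Mt u`): the same with this `b` (LLM).  If `b > γu` (so `b ≥ 1`):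
`∑_{k<K} ∑_j vol(F ∩ UU .. k) ≤ min(10^6 u^5 2^b, K) ∑_j vol(F ∩ ⋃ ..)`: the bound by `K` is trivial, the other one is LPA if `τ ≤ Mt u`, and if `τ = Mt u + 1` then `b = 3u+1` and `K ≤ Cf 2^(2u) ≤ 10^6 u^5 2^b` (large `u`); then PPB.
If `m₁ < 1000` or `m₁ < 200 ns`: LXM and CNC; otherwise PXR and CND.  The conditions `2000 D ≤ η`, `2^(-6u) ≤ D`, `12800 (..) ≤ m₁` are CNB; `0 < m₁` by Nn; `‖c j‖ ≤ Cf ≤ 2^u` for large `u`.  `κ` is the constant of PCI (`PCIk κ`), `C₄` the one of PXR.  `K ≤ Cf 2^(2u) ≤ 2^(4u)` for large `u`.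
Hypotheses: hLLM, hPCI, hLPA, hPPB, hLXM, hPXR, hCNA, hCNB, hCNC, hCND. -/
def StCCT : Prop :=
  ∀ A p s γ Cf ε e : ℝ, 0 ≤ A → Ex2 p s γ → 1 ≤ Cf → 0 < ε → 0 < e →
    ∃ (u₀ : ℕ) (δ C ε' : ℝ), 0 < δ ∧ 0 < C ∧ 0 < ε' ∧
    ∀ (u K τ : ℕ) (sl : ℕ → ℝ) (c : ℕ → Pl) (m : ℕ → ℕ) (F : Set Pl) (η m₁ : ℝ), u₀ ≤ u → 2 ≤ u →
      Slo u A p sl → (∀ j < 2 ^ u, ‖c j‖ ≤ Cf ∧ u ≤ m j + 1) → (K : ℝ) ≤ Cf * (2 : ℝ) ^ (p * u) →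
      ((2 : ℝ) ^ (e * u) ≤ m₁ ∨ (K : ℝ) ≤ Cf * (2 : ℝ) ^ ((p - ε) * u)) →
      BM F → Ctl (D8 s u) F → Nn u δ η m₁ → τ ≤ Mt u + 1 →
      ∑ k ∈ Finset.range K, volume {x | m₁ ≤ ({j : ℕ | j < 2 ^ u ∧
        Hit (sl j) (c j) (m j) u k (CU F (sl j) (m j) u η τ k) x}.ncard : ℝ)} ≤
        ENNReal.ofReal (C * (2 : ℝ) ^ ((p - ε') * u)) * volume F

/-- CCR (about 250 lines), the core estimate.  As PCR (`Pool.Agent.Helper81.RL.M_PCR`).  CCT with `e = ε₂/2` gives `δ`, `ε₁'`; put `ε₃ = min(δ/2, ε₂/4)`, and `u` large.  Let `v_j = Y .. x ∈ [0,1]` (YB), `trS (2^u) t v ≥ 2^(-ε₃u)`, `N = 2^u`.  The `j` with `v_j < 2^(-ε₃u)/(2N)` contribute at most half; for the others (with `v_j < t`)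
`2^(-i-1) < v_j ≤ 2^(-i)` with `i ≤ 2u`, so for some `i ≤ 2u` the number `n_i` of these `j` satisfies `n_i ≥ m' := max(1, 2^(i - ε₃u)/(2(2u+1)))`; `2^i ≤ 2N 2^(ε₃u)` as there is such a `j`, so `m' ≤ N`.  With `η' = 2^(-i-1)`, `η = η'/18`: LGY: these `j` satisfy `Hit .. {y | Rich F .. η y} x`; LPG: for some `τ ≤ Mt u + 1`,
`#{j : Hit .. (CU .. η τ k) x} ≥ m₁ := m'/(Mt u + 2)`.  `Nn u δ η m₁`: `Mt u + 2 ≤ 66u²`, `m₁ η ≥ 2^(-ε₃u)/(4(2u+1)·18·66u²) ≥ 2^(-δu)` for large `u`.  If `t ≤ 2^(-ε₂u)`: `2^(-i-1) < 2^(-ε₂u)`, so `m' ≥ 2^(ε₂u - ε₃u)/(4(2u+1))` and `m₁ ≥ 2^((ε₂/2)u)` for large `u`.  CCT for each of the `2u+1` values `i` (those for which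
`Nn` and the condition on `m₁` hold; for the others the set is empty) and `Mt u + 2` values `τ`; decrease `ε'`.  Hypotheses: hYB, hLGY, hLPG, hCCT. -/
def StCCR : Prop :=
  ∀ A p s γ Cf ε ε₂ : ℝ, 0 ≤ A → Ex2 p s γ → 1 ≤ Cf → 0 < ε → 0 < ε₂ →
    ∃ (u₀ : ℕ) (ε₃ C ε' : ℝ), 0 < ε₃ ∧ 0 < C ∧ 0 < ε' ∧
    ∀ (u K : ℕ) (t : ℝ) (sl : ℕ → ℝ) (c : ℕ → Pl) (m : ℕ → ℕ) (F : Set Pl), u₀ ≤ u →
      Slo u A p sl → (∀ j < 2 ^ u, ‖c j‖ ≤ Cf ∧ u ≤ m j + 1) → (K : ℝ) ≤ Cf * (2 : ℝ) ^ (p * u) →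
      (t ≤ (2 : ℝ) ^ (-(ε₂ * u)) ∨ (K : ℝ) ≤ Cf * (2 : ℝ) ^ ((p - ε) * u)) →
      BM F → Ctl (D8 s u) F →
      ∑ k ∈ Finset.range K, volume {x | (2 : ℝ) ^ (-(ε₃ * u)) ≤ trS (2 ^ u) t (fun j =>
        Y (sl j) (c j) (m j) (1 / (2 : ℝ) ^ u) k (F.indicator 1) x)} ≤
        ENNReal.ofReal (C * (2 : ℝ) ^ ((p - ε') * u)) * volume F

/-- CCS (about 100 lines), the core estimate at the base scale `t₀`.  As PCS (`Pool.Agent.Helper74.RL.M_PCS`): apply CCR to `F' = {z | 2^t₀ z ∈ F}`: `vol(F' ∩ Sq y (2^k)) = 4^(-t₀) vol(F ∩ Sq (2^t₀ y) (2^(k+t₀)))`, `vol F' = 4^(-t₀) vol F`, and the set for `F`, scale `t₀ + k`, is mapped to the set for `F'`, scale `k`, by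
`x ↦ 2^(-t₀) x` (LRS).  Hypotheses: hLRS, hCCR. -/
def StCCS : Prop :=
  ∀ A p s γ Cf ε ε₂ : ℝ, 0 ≤ A → Ex2 p s γ → 1 ≤ Cf → 0 < ε → 0 < ε₂ →
    ∃ (u₀ : ℕ) (ε₃ C ε' : ℝ), 0 < ε₃ ∧ 0 < C ∧ 0 < ε' ∧
    ∀ (u K : ℕ) (t₀ : ℤ) (t : ℝ) (sl : ℕ → ℝ) (c : ℕ → Pl) (m : ℕ → ℕ) (F : Set Pl), u₀ ≤ u →
      Slo u A p sl → (∀ j < 2 ^ u, ‖c j‖ ≤ Cf ∧ u ≤ m j + 1) → (K : ℝ) ≤ Cf * (2 : ℝ) ^ (p * u) →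
      (t ≤ (2 : ℝ) ^ (-(ε₂ * u)) ∨ (K : ℝ) ≤ Cf * (2 : ℝ) ^ ((p - ε) * u)) →
      BM F → (∀ (y : Pl) (k' : ℤ), t₀ ≤ k' → volume (F ∩ Sq y ((2 : ℝ) ^ k')) ≤
        ENNReal.ofReal (D8 s u * (4 : ℝ) ^ k')) →
      ∑ k ∈ Finset.range K, volume {x | (2 : ℝ) ^ (-(ε₃ * u)) ≤ trS (2 ^ u) t (fun j =>
        Y (sl j) (c j) (m j) (1 / (2 : ℝ) ^ u) (t₀ + (k : ℤ)) (F.indicator 1) x)} ≤
        ENNReal.ofReal (C * (2 : ℝ) ^ ((p - ε') * u)) * volume F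

/-- CON (about 250 lines), the chords with small values.  As PON (`Pool.Agent.Helper34.RL.M_PON`).  CCS with `Cf ↦ 2Cf + 6` gives `ε₃'`; put `ε₃ = ε₃'/2`.  `D = 2^(-su)`, `I` least with `K + 3 ≤ 2^I`: `2^I ≤ 2(K+3) ≤ (2Cf + 6) 2^(pu)`, `I ≤ 3u` for large `u`.
For `j` with `v_j := Y_j 1_E x < 2^(-ε₂u)`: LAP (`Cf ↦ Cf + 10`, `R = Cf`): `v_j ≤ D + ∑_{i ≤ I} Y_j 1_(Fa E D i (k/2^i)) x`, and each `Y_j 1_(Fa ..) x ≤ v_j < 2^(-ε₂u)` (YB, monotone).  Sum over these `j`: `2^(-ε₃u) ≤ 2^u D + ∑_{i ≤ I} trS (2^u) (2^(-ε₂u)) (Y_j 1_(Fa E D i (k/2^i)) x)`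
(all terms are `≥ 0`) and `2^(u-su) ≤ 2^(-ε₃u)/2` for large `u` (take also `ε₃ ≤ (s-1)/2`), so for some `i ≤ I` the `i`-th term is `≥ 2^(-ε₃u)/(2(3u+1)) ≥ 2^(-ε₃'u)`.  So the set is contained in the union over `i ≤ I`, `l ∈ ℤ`, `k = l 2^i + k'`, `0 ≤ k' < 2^i`, of the sets of CCS with `t₀ = l 2^i`, `K ↦ 2^i`, `t = 2^(-ε₂u)`,
`F = Fa E D i l` (LAM: density `4D ≤ D8`): `≤ C 2^((p-ε')u) vol(Fa E D i l)`; sum over `l` (LAM) and `i`.  Decrease `ε'`.  Hypotheses: hYB, hLAM, hLAP, hCCS. -/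
def StCON : Prop :=
  ∀ A p s γ Cf ε₂ : ℝ, 0 ≤ A → Ex2 p s γ → 1 ≤ Cf → 0 < ε₂ →
    ∃ (u₀ : ℕ) (ε₃ C ε' : ℝ), 0 < ε₃ ∧ 0 < C ∧ 0 < ε' ∧
    ∀ (u K : ℕ) (sl : ℕ → ℝ) (c : ℕ → Pl) (m : ℕ → ℕ) (E : Set Pl), u₀ ≤ u → Slo u A p sl →
      (∀ j < 2 ^ u, ‖c j‖ ≤ Cf ∧ u ≤ m j + 1 ∧ m j ≤ K) → (K : ℝ) ≤ Cf * (2 : ℝ) ^ (p * u) → BM E →
      volume {x | Loc (Cf + 10) ((2 : ℝ) ^ (-(s * u))) (E.indicator 1) x ∧ ∃ k : ℤ,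
        (2 : ℝ) ^ (-(ε₃ * u)) ≤ trS (2 ^ u) ((2 : ℝ) ^ (-(ε₂ * u))) (fun j =>
          Y (sl j) (c j) (m j) (1 / (2 : ℝ) ^ u) k (E.indicator 1) x)} ≤
        ENNReal.ofReal (C * (2 : ℝ) ^ ((p - ε') * u)) * volume E

/-- CFB (about 100 lines), exit scales.  `Sq z (2^b) ⊆ DQ3 b z ⊆ Sq z (2·2^b)` (if `|z 0 - y 0| ≤ 2^b` the floors differ by at most one; if they differ by at most one then `|z 0 - y 0| < 2·2^b`), so `Fb E D b ⊆ Ck E D b ⊆ Fb E (4D) b` (for the second: `b' ≥ b`, `vol(E ∩ DQ3 b' z) ≤ vol(E ∩ Sq z (2^(b'+1))) ≤ D 4^(b'+1)`).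
Second part (as LAP): `Y .. x` is an integral of `g` over points of `S = Sq x ((R+3) 2^k)`.  Let `z ∈ E ∩ S`, `z ∉ Fb E D (k - 2^q)`.  By `Loc` (constant `D/4`): `z ∈ Ck E (D/4) k`, and `z ∉ Ck E (D/4) (k - 2^q)` (first part).  Let `κ` be the least integer with `z ∈ Ck E (D/4) κ`, `α = k - κ`, `0 ≤ α < 2^q`.
If `α = 0` then `z ∈ Fa E (D/4) 0 k`; if `2^i ≤ α < 2^(i+1)` then `i ≤ q` and for `l = k / 2^i` (floor): `l 2^i > k - 2^i ≥ κ` and `(l-4) 2^i ≤ k - 4·2^i < κ`, so `z ∈ Fa E (D/4) i l`.  So `1_(E \ Fb E D (k-2^q)) ≤ ∑_{i ≤ q} 1_(Fa E (D/4) i (k/2^i))` on `S`; `Y` is additive and monotone (YB).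
(The proof of LAP is in `Pool.Agent.Helper2.RL.M_LAP`.)  Hypotheses: hPT, hMEA, hYB, hLAM. -/
def StCFB : Prop :=
  (∀ (E : Set Pl) (D : ℝ) (b : ℤ), 0 ≤ D → Fb E D b ⊆ Ck E D b ∧ Ck E D b ⊆ Fb E (4 * D) b) ∧
  ∀ (E : Set Pl) (D R Cf : ℝ) (q : ℕ) (s : ℝ) (c : Pl) (m u : ℕ) (x : Pl) (k : ℤ), BM E → 0 < D →
    |s| ≤ 1 → ‖c‖ ≤ R → u ≤ m + 1 → R + 10 ≤ Cf → Loc Cf (D / 4) (E.indicator 1) x →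
    Y s c m (1 / (2 : ℝ) ^ u) k ((E \ Fb E D (k - 2 ^ q)).indicator 1) x ≤
      ∑ i ∈ Finset.range (q + 1),
        Y s c m (1 / (2 : ℝ) ^ u) k ((Fa E (D / 4) i (k / 2 ^ i)).indicator 1) x

/-- CYO (about 200 lines), the young points.  As CON.  CCS with `ε₂ = 1`, `ε`, and `t = 2` (all values are `≤ 1`, so `trS (2^u) 2` is the whole sum) for `K ↦ 2^i ≤ 2^q ≤ Cf 2^((p-ε)u)`.  `D = 2^(-su)`.  By CFB (`Cf ↦ Cf + 10`, `R = Cf`), summed over `j`: for some `i ≤ q ≤ 2u` (`2^q ≤ 2^((p-ε)u)`) `∑_j Y_j 1_(Fa E (D/4) i (k/2^i)) x ≥ 2^(-ε₃u)/(2u+1) ≥ 2^(-ε₃'u)`,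
`ε₃ = ε₃'/2`, `u` large.  Union over `i`, `l`, `k'` as in CON; LAM: density `4(D/4) ≤ D8`, `∑_l vol(Fa ..) ≤ 4 vol E`.  Hypotheses: hYB, hLAM, hCFB, hCCS. -/
def StCYO : Prop :=
  ∀ A p s γ Cf ε : ℝ, 0 ≤ A → Ex2 p s γ → 1 ≤ Cf → 0 < ε → ε < p →
    ∃ (u₀ : ℕ) (ε₃ C ε' : ℝ), 0 < ε₃ ∧ 0 < C ∧ 0 < ε' ∧
    ∀ (u q : ℕ) (sl : ℕ → ℝ) (c : ℕ → Pl) (m : ℕ → ℕ) (E : Set Pl), u₀ ≤ u → Slo u A p sl →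
      (∀ j < 2 ^ u, ‖c j‖ ≤ Cf ∧ u ≤ m j + 1) → (q : ℝ) ≤ (p - ε) * u → BM E →
      volume {x | Loc (Cf + 10) ((2 : ℝ) ^ (-(s * u)) / 4) (E.indicator 1) x ∧ ∃ k : ℤ,
        (2 : ℝ) ^ (-(ε₃ * u)) ≤ ∑ j ∈ Finset.range (2 ^ u), Y (sl j) (c j) (m j) (1 / (2 : ℝ) ^ u) k
          ((E \ Fb E ((2 : ℝ) ^ (-(s * u))) (k - 2 ^ q)).indicator 1) x} ≤
        ENNReal.ofReal (C * (2 : ℝ) ^ ((p - ε') * u)) * volume E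

end Pool.Agent.Helper61.EP
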