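import Pool.Agent.Helper61.EP.StC
import Pool.Agent.Helper68.EP.St6

/-!
# Project EP (MP_cb927e_an), part L: Fourier analysis, domination, exceptional sets; output `StLO` of `Pool.Agent.Helper68.EP.St6`

`N = 2^u`.  Notation: `elt`, `GapP`, `dat`, `Gf`, `tt`, `Fo`, `q0`, `Par`, `Sy` are those of `Pool.Agent.Helper68.EP`; `trS`, `Ex2`, `Yc`, `Zc`, `Ec`, `am`, `cutf`
those of `Pool.Agent.Helper61.EP.Defs`.  `E_v = Gf f (l + v) = {2^(l+v) ≤ f < 2^(l+v+1)}`, `g_m = f` on `Gf f m`, `0` elsewhere; `cutf f l u = ∑_{v < u} g_(l+v)`.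
`Sa u g - Sa (u-1) g = Zc u g + Ec u g`.  Every statement is a `Prop` proved in a module of its own.
-/

set_option autoImplicit false

open MeasureTheory Set Filter Topology
open scoped ENNReal RealInnerProductSpace

namespace Pool.Agent.Helper61.EPL

open Pool.Agent.Helper68.LM (Pl BB Bd Av HL ft fm DQ)
open Pool.Agent.Helper20.RG
open Pool.Agent.Helper20.RL (RQ Rich BM Fml Hit)
open Pool.Agent.Helper68.EP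
open Pool.Agent.Helper61.EP (trS Ex2 Yc Zc Ec am cutf)

/-! ## The multipliers -/

/-- LM1 (about 150 lines), high frequencies.  `C` is the constant of MB, `s = τ (tm u j)`, `m = mm τ u j`, `θ = -ξ 0/ξ 1`, `ℓ = 2^0 = 1`.  Suppose `C 2^(-a) < ‖Zh‖`.  MB (third bound; `m' ≤ m` by MM): `‖ξ‖ < 2^(m+a)`, so `i + u + 1 < m`.  MB (fourth bound): `|⟪E s, ξ⟫| = |ξ 0 + s ξ 1| < 2^a`.
If `|ξ 1| < ‖ξ‖/4` then `|ξ 0| ≥ 3‖ξ‖/4` and `|⟪E s, ξ⟫| ≥ ‖ξ‖/2 ≥ 2^a`, a contradiction.  So `|ξ 1| ≥ ‖ξ‖/4` and `|s - θ| < 4·2^a/‖ξ‖ ≤ 2^(1-u-i) ≤ 2^(-i-1)` (`u ≥ 2`).  For `t ∈ [j/2^u, (j+1)/2^u]` (contained in the tripled interval, `τ` is nondecreasing): `|τ t - s| ≤ trn τ u j ≤ 2^u/2^m ≤ 2^(-i-1)` (MM).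
So `|τ t - θ| ≤ 2^(-i)` on this interval of length `2^(-u)`, contained in `[0,1]`, and `elt τ θ i ≥ 2^(-u)`, a contradiction.  Hypotheses: hPT, hMB, hMM. -/
def StLM1 : Prop :=
  ∃ C : ℝ, 1 ≤ C ∧ ∀ (φ τ : ℝ → ℝ) (A₁ p : ℝ) (c : Pl), Graph φ τ → Gap A₁ p τ → 0 < A₁ → 0 < p →
    ∀ (u j i a : ℕ) (ξ : Pl), 2 ≤ u → j < 2 ^ u → elt τ (-(ξ 0) / ξ 1) i < (2 : ℝ) ^ (-(u : ℤ)) →
      (2 : ℝ) ^ (i + u + a + 1) ≤ ‖ξ‖ →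
      ‖Zh (τ (tm u j)) (ce c φ u j) (mm τ u j) (mm τ (u - 1) (j / 2)) ((2 : ℝ) ^ 0) ξ‖ ≤
        C * (2 : ℝ) ^ (-(a : ℤ))

/-- LM2 (about 150 lines), one class.  SYS (second part) and U1 (`C₀ = 200`, `ℓ = 1`): `am ≤ C₁`.  OCT with `f k = ofReal (am (2^k ξ))`, `r = ‖ξ‖`, `p = 0`, `q = n + 2u + 4` (`-(2^k ξ) 0/(2^k ξ) 1 = -ξ 0/ξ 1`).  Low frequencies: MB (second bound), `m'_j + 1 ≥ u - 1` (MM at level `u - 1 ≥ 1`, `j/2 < 2^(u-1)`):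
`am (2^k ξ) ≤ 2^u C 2^k r 2^(2-u) = 4C 2^k r`.  High frequencies, `2^k r ≥ 2^q`: let `a` be the largest natural number with `2^((n+1)+u+a+1) ≤ 2^k r`, so `2^k r < 2^(n+u+a+3)`; LM1 (`i = n+1`): `am (2^k ξ) ≤ 2^u C 2^(-a) ≤ C 2^(n+2u+3)/(2^k r)`.  Hypotheses: hMB, hMM, hSYS, hU1, hOCT, hLM1. -/
def StLM2 : Prop :=
  ∃ C : ℝ, 1 ≤ C ∧ ∀ (φ τ : ℝ → ℝ) (A₁ p : ℝ) (c : Pl), Graph φ τ → Gap A₁ p τ → 0 < A₁ → 0 < p →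
    ∀ (u n : ℕ) (ξ : Pl), 2 ≤ u → ξ ≠ 0 → elt τ (-(ξ 0) / ξ 1) (n + 1) < (2 : ℝ) ^ (-(u : ℤ)) →
      am c φ τ u ξ ≤ C ∧
      ∑' k : ℤ, ENNReal.ofReal (am c φ τ u ((2 : ℝ) ^ k • ξ)) ≤ ENNReal.ofReal (C * (n + u + 1))

/-- LMI (about 200 lines), all classes.  `Gap (A^(1/p)) p τ` by GPG.  `θ = -ξ 0/ξ 1`, `x_i = elt τ θ (i+1) ≥ 0`, `∑_{i < n} x_i^p ≤ A` for all `n`.  For every `u` let `n_u` be the least `n` with `x_n < 2^(-u)` (it exists: otherwise `n 2^(-pu) ≤ A` for all `n`); so `x_i ≥ 2^(-u)` for `i < n_u`.  LM2 with `n = n_u`.  So the sum is at most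
`∑_{u ∈ [2,U]} 2^(-pu) C (n_u + u + 1)`, and (`N = max n_u`) `∑_u 2^(-pu) n_u ≤ ∑_{i<N} ∑_{u : 2^(-u) ≤ x_i} 2^(-pu) ≤ ∑_{i<N} x_i^p/(1 - 2^(-p)) ≤ 2A`, `∑_u 2^(-pu)(u+1) ≤ C'`.  (The sum over `k` is exchanged with the finite sum.)  Hypotheses: hGPG, hLM2. -/
def StLMI : Prop :=
  ∀ A p : ℝ, 0 < A → 1 < p → ∃ C : ℝ, 1 ≤ C ∧ ∀ (φ τ : ℝ → ℝ) (c : Pl), Graph φ τ → GapP A p τ →
    (∀ (u : ℕ) (ξ : Pl), 2 ≤ u → ξ ≠ 0 → am c φ τ u ξ ≤ C) ∧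
    ∀ (U : ℕ) (ξ : Pl), ξ ≠ 0 → ∑' k : ℤ, ∑ u ∈ Finset.Icc 2 U,
      ENNReal.ofReal ((2 : ℝ) ^ (-(p * u)) * am c φ τ u ((2 : ℝ) ^ k • ξ)) ≤ ENNReal.ofReal C

/-- LPR (about 180 lines), numbers.  `β = 2 - p ∈ (0,1)`, `b_u = 2^(-u) a_u`, `S` = the last sum.  Cauchy-Schwarz for the sum over the pairs `(u,v)`, `u ∈ [2,U]`, `v < u`, with weights `b_u 2^(βv/2)`: `(∑ b_u G_(l+v))² ≤ (∑ b_u 2^(βv/2)) (∑ b_u 2^(-βv/2) G_(l+v)²)`; multiply by `2^(-βl)` and sum over `l`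
(`∑_l 2^(-βl) G_(l+v)² = 2^(βv) S`): the left side is at most `S (∑_(u,v) b_u 2^(βv/2))² ≤ C S (∑_u b_u 2^(βu/2))² = C S (∑_u 2^(-pu/2) a_u)²` (`-1 + β/2 = -p/2`), and `(∑_u 2^(-pu/2) a_u)² ≤ 2 ∑_{u ≤ u'} 2^(-p(u+u')/2) a_u a_u' ≤ 2 C₁/(1 - 2^(-p/2)) ∑_u 2^(-pu) a_u` (`a_u' ≤ C₁`).
Hypotheses: none. -/
def StLPR : Prop :=
  ∀ p : ℝ, 1 < p → p < 2 → ∃ C : ℝ, 1 ≤ C ∧ ∀ (C₁ : ℝ) (U : ℕ) (a : ℕ → ℝ) (G : ℤ → ℝ≥0∞),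
    0 ≤ C₁ → (∀ u, 0 ≤ a u ∧ a u ≤ C₁) →
    ∑' l : ℤ, ENNReal.ofReal ((2 : ℝ) ^ ((p - 2) * l)) * (∑ u ∈ Finset.Icc 2 U,
      ENNReal.ofReal ((2 : ℝ) ^ (-(u : ℝ)) * a u) * ∑ v ∈ Finset.range u, G (l + (v : ℤ))) ^ 2 ≤
    ENNReal.ofReal (C * C₁) *
      (∑ u ∈ Finset.Icc 2 U, ENNReal.ofReal ((2 : ℝ) ^ (-(p * u)) * a u)) *
      ∑' h : ℤ, ENNReal.ofReal ((2 : ℝ) ^ ((p - 2) * h)) * G h ^ 2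

/-- LSQ (about 220 lines), sums over levels.  (Measurable `f ≥ 0`; the sets `Gf f m` are disjoint.)  First: on `Gf f h`: `f² = f^p f^(2-p) ≤ f^p 2^((2-p)(h+1))`.  Second: fix `x`, `f x > 0`, `m = ⌊log₂ (f x)⌋`; `2^l ≤ f x < 2^(l+u)` implies `m - u < l ≤ m`, and
`∑_{l = m-u+1}^m 2^(-(2-p)l) ≤ C 2^(-(2-p)m) 2^((2-p)u)`, `f² ≤ f^p 2^((2-p)(m+1))`.  Third: `2^(pm) ≤ f^p` on `Gf f m`.  Fourth: exchange the sums: `∑_v 2^(-εv) ∑_l 2^(p(l+v)) vol(Gf f (l+v))`, third clause.  (`Finset`-free: Tonelli `lintegral_tsum`, `ENNReal.tsum_comm`, shift `Equiv.addRight`.)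
Hypotheses: none. -/
def StLSQ : Prop :=
  ∀ p : ℝ, 1 < p → p < 2 → ∃ C : ℝ, 1 ≤ C ∧ ∀ f : Pl → ℝ, Measurable f → (∀ x, 0 ≤ f x) →
    (∑' h : ℤ, ENNReal.ofReal ((2 : ℝ) ^ ((p - 2) * h)) * ∫⁻ x, ‖(Gf f h).indicator f x‖ₑ ^ 2 ≤
      ENNReal.ofReal C * ∫⁻ x, ENNReal.ofReal (f x) ^ p) ∧
    (∀ u : ℕ, ∑' l : ℤ, ENNReal.ofReal ((2 : ℝ) ^ ((p - 2) * l)) * ∫⁻ x, ‖cutf f l u x‖ₑ ^ 2 ≤
      ENNReal.ofReal (C * (2 : ℝ) ^ ((2 - p) * u)) * ∫⁻ x, ENNReal.ofReal (f x) ^ p) ∧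
    (∑' m : ℤ, ENNReal.ofReal ((2 : ℝ) ^ (p * m)) * volume (Gf f m) ≤
      ∫⁻ x, ENNReal.ofReal (f x) ^ p) ∧
    ∀ ε : ℝ, 0 < ε → ∑' l : ℤ, ENNReal.ofReal ((2 : ℝ) ^ (p * l)) *
      ∑' v : ℕ, ENNReal.ofReal ((2 : ℝ) ^ ((p - ε) * v)) * volume (Gf f (l + (v : ℤ))) ≤
      ENNReal.ofReal (1 / (1 - (2 : ℝ) ^ (-ε))) * ∫⁻ x, ENNReal.ofReal (f x) ^ p

/-- LZF (about 200 lines), Fourier transforms.  YB: `Y` of a `BB` function is `BB`, `ft (Y .. g) ξ = Yh (2^k ξ) ft g ξ` (`|s| ≤ 1` by Graph); `ft` is linear on `BB` (`Helper68.LM.StFS`, last clause, proved, and `Real.fourier_eq'`), finite sums and scalar multiples of `BB` functions are `BB`.  `am` is continuous in `ξ` (`Complex.exp`, `Real.sinc` are continuous).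
Fourth: pointwise, `f` has one of the heights `2^(l+v)`, `v < u`, or the value is `0`.  Fifth: `f` is bounded with bounded support, `cutf f l u` is `f` on a measurable set.  (See the modules YB, L2A of project RG: `Pool.Agent.Helper20.RG.Asm` for the names.)  Hypotheses: hPT, hMEA, hYB. -/
def StLZF : Prop :=
  (∀ (φ τ : ℝ → ℝ) (c : Pl), Graph φ τ → ∀ (u : ℕ) (k : ℤ) (g : Pl → ℝ), BB g →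
    BB (Zc c φ τ u k g) ∧ ∀ ξ : Pl, ‖ft (Zc c φ τ u k g) ξ‖ₑ ≤
      ENNReal.ofReal ((2 : ℝ) ^ (-(u : ℝ)) * am c φ τ u ((2 : ℝ) ^ k • ξ)) * ‖ft g ξ‖ₑ) ∧
  (∀ (S : Finset ℕ) (F : ℕ → Pl → ℝ), (∀ u ∈ S, BB (F u)) → BB (fun x => ∑ u ∈ S, F u x) ∧
    ∀ ξ : Pl, ft (fun x => ∑ u ∈ S, F u x) ξ = ∑ u ∈ S, ft (F u) ξ) ∧
  (∀ (φ τ : ℝ → ℝ) (c : Pl) (u : ℕ), Continuous (am c φ τ u)) ∧
  (∀ (f : Pl → ℝ) (l : ℤ) (u : ℕ) (x : Pl),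
    cutf f l u x = ∑ v ∈ Finset.range u, (Gf f (l + (v : ℤ))).indicator f x) ∧
  ∀ f : Pl → ℝ, BB f → ∀ l : ℤ, BB ((Gf f l).indicator f) ∧ ∀ u : ℕ, BB (cutf f l u)

/-- LPL (about 250 lines), the main `L²` estimate.  `g_h = (Gf f h).indicator f`.  Plancherel (`Helper68.LM.StPL`, proved) for the `BB` function `∑_{u ∈ (U₀,U]} Zc u k (cutf f l u)` and LZF: `∫ ‖..‖² ≤ ∫ (∑_{u ∈ [2,U]} 2^(-u) am_u(2^k ξ) ∑_{v<u} ‖ft g_(l+v) ξ‖)² dξ` (`cutf f l u = ∑_{v<u} g_(l+v)`).  Sum over `l`, `k`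
(`lintegral_tsum`; `ft g_h` is continuous or measurable by `StPL`, `am` is continuous) and apply LPR for fixed `k`, `ξ ≠ 0` with `a_u = am_u (2^k ξ) ≤ C₁` (LMI, first part; put `a_u = 0` for `u < 2`), then LMI (second part) for the sum over `k`: `≤ C C₁ C₁ ∫ ∑_h 2^((p-2)h) ‖ft g_h ξ‖² dξ = C' ∑_h 2^((p-2)h) ∫ g_h²` (Plancherel), LSQ (first clause).
Hypotheses: hLMI, hLPR, hLSQ, hLZF. -/
def StLPL : Prop :=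
  ∀ A p : ℝ, 0 < A → 1 < p → p < 2 → ∃ C : ℝ, 1 ≤ C ∧ ∀ (φ τ : ℝ → ℝ) (c : Pl), Graph φ τ →
    GapP A p τ → ∀ (U₀ U : ℕ) (f : Pl → ℝ), 1 ≤ U₀ → BB f → (∀ x, 0 ≤ f x) →
      ∑' l : ℤ, ENNReal.ofReal ((2 : ℝ) ^ ((p - 2) * l)) * ∑' k : ℤ,
        ∫⁻ x, ‖∑ u ∈ Finset.Ioc U₀ U, Zc c φ τ u k (cutf f l u) x‖ₑ ^ 2 ≤
      ENNReal.ofReal C * ∫⁻ x, ENNReal.ofReal (f x) ^ p

/-! ## Exceptional sets -/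

/-- LX3 (about 150 lines).  For each `l`, `k` Chebyshev: the measure is at most `16·4^(-l) ∫ (liminf_U ‖..‖)² ≤ 16·4^(-l) liminf_U ∫ ‖..‖²` (`(liminf a)² ≤ liminf a²`, Fatou `lintegral_liminf_le`; the functions are measurable, `BB` by LZF).  Sum over `k`, `l` with weights `2^(pl)`; Fatou for the counting measure on `ℤ × ℤ` (or for `Measure.count`
twice): `∑_l ∑_k liminf_U ≤ liminf_U ∑_l ∑_k`, LPL.  Hypotheses: hLZF, hLPL. -/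
def StLX3 : Prop :=
  ∀ A p : ℝ, 0 < A → 1 < p → p < 2 → ∃ C : ℝ, 1 ≤ C ∧ ∀ (φ τ : ℝ → ℝ) (c : Pl), Graph φ τ →
    GapP A p τ → ∀ (U₀ : ℕ) (f : Pl → ℝ), 1 ≤ U₀ → BB f → (∀ x, 0 ≤ f x) →
      ∑' l : ℤ, ENNReal.ofReal ((2 : ℝ) ^ (p * l)) * volume {x | ∃ k : ℤ,
        ENNReal.ofReal ((2 : ℝ) ^ l / 4) < liminf (fun U : ℕ =>
          ‖∑ u ∈ Finset.Ioc U₀ U, Zc c φ τ u k (cutf f l u) x‖ₑ) atTop} ≤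
      ENNReal.ofReal C * ∫⁻ x, ENNReal.ofReal (f x) ^ p

/-- LX2 (about 180 lines).  `δ = (p-1)/4`, `c_i = (1 - 2^(-δ)) 2^(-δi)/4`, `∑ c_i = 1/4`: if `∑_i ‖Ec ..‖ > 2^l/4` then `‖Ec c φ τ (U₀+i+1) k ..‖ > c_i 2^l` for some `i`.  Chebyshev: the measure is at most `∑_i c_i^(-2) 4^(-l) ∑_k ∫ ‖Ec u k (cutf f l u)‖²`, `u = U₀ + i + 1 ≥ 2`.  PER with `W = 0` (`σ = p`; `Ec` is its integrand), then LSQ (second clause):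
`∑_l 2^((p-2)l) ∑_k ∫ ‖Ec u k (cutf f l u)‖² ≤ C 2^(-u) (u+1)³ 2^((2-p)u) ∫ f^p`; times `c_i^(-2) ≤ C 2^(2δu) = C 2^((p-1)u/2)`: `∑_u C (u+1)³ 2^(-(p-1)u/2) < ∞`.  Hypotheses: hYB, hPER, hLSQ, hLZF. -/
def StLX2 : Prop :=
  ∀ (φ τ : ℝ → ℝ) (A₁ p : ℝ) (c : Pl), Graph φ τ → Gap A₁ p τ → 0 < A₁ → 1 < p → p < 2 →
    ∃ C : ℝ, 1 ≤ C ∧ ∀ (U₀ : ℕ) (f : Pl → ℝ), 1 ≤ U₀ → BB f → (∀ x, 0 ≤ f x) →
      ∑' l : ℤ, ENNReal.ofReal ((2 : ℝ) ^ (p * l)) * volume {x | ∃ k : ℤ,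
        ENNReal.ofReal ((2 : ℝ) ^ l / 4) <
          ∑' i : ℕ, ‖Ec c φ τ (U₀ + i + 1) k (cutf f l (U₀ + i + 1)) x‖ₑ} ≤
      ENNReal.ofReal C * ∫⁻ x, ENNReal.ofReal (f x) ^ p

/-- LGO (about 250 lines), the good points.  `R = ‖c‖ + |φ 0| + 3`, `ρ = max (2 Cf) (2(R+3))`, `K = KA A₁ p U₀`, `a = 4^(-K)/4 ≤ 1/4`, `X l = {x | ofReal (a 2^(sl)) < HL ρ (f^s) x}` (`f^s = fun x => f x ^ s` is `BB`).  First: for a measurable `H ≥ 0` (values in `[0,∞]`) `∑_l 2^(pl) 1[a 2^(sl) < H] ≤ C (H/a)^(p/s)` (`2^l < (H/a)^(1/s)`, geometric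
series), and `∫ (HL ρ (f^s))^(p/s) ≤ C ∫ f^p` (`Helper68.LM.StHLS`, proved, exponent `p/s > 1`).  Second: `1_(Gf f (l+u)) ≤ 2^(-s(l+u)) f^s`, so `HL ρ 1_(..) x ≤ a 2^(-su) ≤ 2^(-su)/4`, GD.  Third: `cutf f l U₀ ≤ 2^((1-s)l) f^s` (`f ≥ 2^l`, `s > 1`), HLY (`mm ≤ KA`: MM, SYS for `‖ce‖ ≤ R`, Graph):
each `Y ≤ 4^K 2^((1-s)l) a 2^(sl) = 2^l/4`, and `Sa` is the average of the `Y`.  Hypotheses: hMM, hSYS, hGD, hHLY, hLZF. -/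
def StLGO : Prop :=
  ∀ (φ τ : ℝ → ℝ) (A₁ p s Cf : ℝ) (c : Pl) (U₀ : ℕ), Graph φ τ → Gap A₁ p τ → 0 < A₁ → 1 < s →
    s < p → 1 ≤ Cf → 1 ≤ U₀ → ∃ C : ℝ, 1 ≤ C ∧ ∀ f : Pl → ℝ, BB f → (∀ x, 0 ≤ f x) →
      ∃ X : ℤ → Set Pl,
        (∑' l : ℤ, ENNReal.ofReal ((2 : ℝ) ^ (p * l)) * volume (X l) ≤
          ENNReal.ofReal C * ∫⁻ x, ENNReal.ofReal (f x) ^ p) ∧
        ∀ (l : ℤ) (x : Pl), x ∉ X l →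
          (∀ u : ℕ, Loc Cf ((2 : ℝ) ^ (-(s * u)) / 4) ((Gf f (l + (u : ℤ))).indicator 1) x) ∧
          ∀ k : ℤ, 4 * Sa c φ τ U₀ k (cutf f l U₀) x ≤ (2 : ℝ) ^ l

/-- LXC (about 220 lines), the exceptional sets of part C.  `Cf₀ ≥ 1` with `‖ce c φ u j‖ ≤ ‖c‖ + |φ 0| + 3 ≤ Cf₀` (SYS) and `KA A₁ p u ≤ Cf₀ 2^(pu)` for `u ≥ 1` (`KA ≤ u + 2 + (A₁ 2^u)^p`), `Cf = Cf₀ + 10`.  `Slo`: SYS (`slope`, `sep`).  `u ≤ mm + 1`, `mm ≤ KA`: MM.  CON with `ε₂ = P.g/8` (`P.g = (s-1)/64 > 0`), `K = KA A₁ p u`, `E = Gf f (l+u)` (`BM`, as `f` is `BB`;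
`Loc` is monotone in the second argument), CYO with `ε = P.ε < p`, `q = q0 P u ≤ (p-ε)u` (`Fo P u k q E = Fb E (2^(-su)) (k - 2^q)`); `ε₃`, `ε'` the smaller ones.  So for `u ≥ u₀` the set of the `x` with this `u` has measure at most `2 C 2^((p-ε')u) vol(Gf f (l+u))`; LSQ (fourth clause).
Hypotheses: hMM, hSYS, hCON, hCYO, hLSQ. -/
def StLXC : Prop :=
  ∀ (φ τ : ℝ → ℝ) (A₁ γ : ℝ) (c : Pl) (P : Par), Graph φ τ → Gap A₁ P.p τ → 0 < A₁ →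
    Ex2 P.p P.s γ → ∃ (u₀ : ℕ) (ε₃ Cf C : ℝ), 0 < ε₃ ∧ 1 ≤ Cf ∧ 1 ≤ C ∧
    ∀ f : Pl → ℝ, BB f → (∀ x, 0 ≤ f x) →
      ∑' l : ℤ, ENNReal.ofReal ((2 : ℝ) ^ (P.p * l)) * volume {x | ∃ u : ℕ, u₀ ≤ u ∧
        Loc Cf ((2 : ℝ) ^ (-(P.s * u)) / 4) ((Gf f (l + (u : ℤ))).indicator 1) x ∧ ∃ k : ℤ,
        ((2 : ℝ) ^ (-(ε₃ * u)) ≤ trS (2 ^ u) ((2 : ℝ) ^ (-(P.g / 8 * u)))
            (fun j => Yc c φ τ u k ((Gf f (l + (u : ℤ))).indicator 1) x j) ∨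
          (2 : ℝ) ^ (-(ε₃ * u)) ≤ ∑ j ∈ Finset.range (2 ^ u), Yc c φ τ u k
            ((Gf f (l + (u : ℤ)) \ Fo P u k (q0 P u) (Gf f (l + (u : ℤ)))).indicator 1) x j)} ≤
        ENNReal.ofReal C * ∫⁻ x, ENNReal.ofReal (f x) ^ P.p

/-! ## Domination -/

/-- LDI (about 200 lines).  Exactly the proof of `Pool.Agent.Helper24.RG.hDOM` (file `Pool/Agent/Helper24/RG/M_DOM.lean`) up to `hT`: for a.e. `x` and all `k` the integrals of DO1 tend to `Av (arc c φ) (2^k) g x` as `u → ∞`; by DO1 they are at most `4 Sa c φ τ u k g x` for `u ≥ 1`; so the limit is at most the `liminf`.  Hypotheses: hPT, hMM, hLEB, hDO1. -/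
def StLDI : Prop :=
  ∀ (φ τ : ℝ → ℝ) (A₁ p : ℝ) (c : Pl), Graph φ τ → Gap A₁ p τ → 0 < A₁ → 0 < p →
    ∀ g : Pl → ℝ, BB g → (∀ x, 0 ≤ g x) → ∀ᵐ x : Pl, ∀ k : ℤ,
      ENNReal.ofReal (Av (arc c φ) ((2 : ℝ) ^ k) g x) ≤
        liminf (fun U : ℕ => ENNReal.ofReal (4 * Sa c φ τ U k g x)) atTop

/-- LDM (about 300 lines).  For every `l` let `f_l = {2^l ≤ f}.indicator f` (`BB`); LDI for all `f_l` (countably many).  Fix `x`, `k`, `l`.  `f ≤ 2^l + f_l` and `arc` has mass one: `Av f ≤ 2^l + Av f_l`.  Let `f < 2^(l+V)` everywhere; for `u ≥ V`: `cutf f l u = f_l`, and `Gf f (l+u) = ∅`.  Put `f_u = cutf f l u`, `g_m = (Gf f m).indicator f`.  As `f_u - f_(u-1) = g_(l+u-1)`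
and `Sa` is additive (YB), `Sa_u f_u - Sa_(u-1) f_(u-1) = Zc u f_u + Ec u f_u + Sa_(u-1) g_(l+u-1)` for `u > U₀`; sum: for `U ≥ U₀`
`Sa_U f_U = Sa_U₀ f_U₀ + ∑_{u ∈ [U₀,U)} Sa_u g_(l+u) + ∑_{u ∈ (U₀,U]} (Zc u f_u + Ec u f_u)`.  `g_(l+u) ≤ 2^(l+u+1) 1_(Gf f (l+u))`, so (YB, monotone) `Sa_u g_(l+u) ≤ 2^(-u) 2^(l+u+1) ∑_j Yc .. = 2·2^l ∑_j Yc ..`.  Let `T = ∑_{u ∈ [U₀,V)} ∑_j Yc ..` (`V ≥ U₀` as above).  For `U ≥ V`: `4 Sa_U f_l ≤ 2^l + 8·2^l T + 2^l + 4 ‖∑_{u ∈ (U₀,U]} Zc u f_u‖`, so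
`Av f ≤ 2^l + 3·2^l + 8·2^l T`, and `5·2^l < Av f` gives `1/8 < T`.  Hypotheses: hPT, hYB, hLZF, hLDI. -/
def StLDM : Prop :=
  ∀ (φ τ : ℝ → ℝ) (A₁ p : ℝ) (c : Pl), Graph φ τ → Gap A₁ p τ → 0 < A₁ → 0 < p →
    ∀ (U₀ : ℕ) (f : Pl → ℝ), 1 ≤ U₀ → BB f → (∀ x, 0 ≤ f x) → ∀ᵐ x : Pl, ∀ k l : ℤ,
      5 * (2 : ℝ) ^ l < Av (arc c φ) ((2 : ℝ) ^ k) f x →
      4 * Sa c φ τ U₀ k (cutf f l U₀) x ≤ (2 : ℝ) ^ l →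
      ∑' i : ℕ, ‖Ec c φ τ (U₀ + i + 1) k (cutf f l (U₀ + i + 1)) x‖ₑ ≤ ENNReal.ofReal ((2 : ℝ) ^ l / 4) →
      liminf (fun U : ℕ => ‖∑ u ∈ Finset.Ioc U₀ U, Zc c φ τ u k (cutf f l u) x‖ₑ) atTop ≤
        ENNReal.ofReal ((2 : ℝ) ^ l / 4) →
      ∃ V : ℕ, 1 / 8 ≤ ∑ u ∈ Finset.Ico U₀ V, ∑ j ∈ Finset.range (2 ^ u),
        Yc c φ τ u k ((Gf f (l + (u : ℤ))).indicator 1) x j

/-- LCB (about 180 lines), combinatorics at a point.  `E = Gf f (l+u)` (`BM`), `v_j = Yc .. 1_E x j ∈ [0,1]`, `o_j`, `y_j` the same for `Fo P u k (q0 P u) E` and for its complement in `E` (`BM` by EFB), so `v_j = o_j + y_j` (YB).  If `v_j ≥ 2^(-(g/8)u)`: either `o_j ≥ v_j/2 ≥ 2^(-(g/8)u)/2`, so `o_j` is the `tt` of `j` and `v_j ≤ 2 tt_j`, or `v_j ≤ 2 y_j`.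
So `∑_j v_j ≤ trS .. + 2 ∑_j tt_j + 2 ∑_j y_j ≤ 3·2^(-ε₃u) + 2 ∑_j tt_j` (all terms `≥ 0`).  Choose `u₁` with `3·2^(-ε₃ u₁)/(1 - 2^(-ε₃)) ≤ 1/10`; then `1/8 ≤ 1/10 + 2 ∑_u ∑_j tt_j`.  Hypotheses: hYB, hEFB. -/
def StLCB : Prop :=
  ∀ ε₃ : ℝ, 0 < ε₃ → ∃ u₁ : ℕ, ∀ (φ τ : ℝ → ℝ) (P : Par) (c : Pl) (U₀ V : ℕ) (k l : ℤ) (f : Pl → ℝ)
    (x : Pl), Graph φ τ → u₁ ≤ U₀ → BB f → (∀ x, 0 ≤ f x) →
    (∀ u : ℕ, U₀ ≤ u → trS (2 ^ u) ((2 : ℝ) ^ (-(P.g / 8 * u)))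
      (fun j => Yc c φ τ u k ((Gf f (l + (u : ℤ))).indicator 1) x j) < (2 : ℝ) ^ (-(ε₃ * u))) →
    (∀ u : ℕ, U₀ ≤ u → ∑ j ∈ Finset.range (2 ^ u), Yc c φ τ u k
      ((Gf f (l + (u : ℤ)) \ Fo P u k (q0 P u) (Gf f (l + (u : ℤ)))).indicator 1) x j <
        (2 : ℝ) ^ (-(ε₃ * u))) →
    1 / 8 ≤ ∑ u ∈ Finset.Ico U₀ V, ∑ j ∈ Finset.range (2 ^ u),
      Yc c φ τ u k ((Gf f (l + (u : ℤ))).indicator 1) x j →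
    1 / 200 ≤ ∑ u ∈ Finset.Icc U₀ V, ∑ j ∈ Finset.range (2 ^ u),
      tt P (dat τ) (ce c φ) (P.g / 8) u j k (Gf f (l + (u : ℤ))) x

/-- LOA (about 180 lines), the output of part L: `StLO` of `Pool.Agent.Helper68.EP.St6`.  GPG: `Gap A₁ p τ`, `A₁ = A^(1/p)`.  SY: `c0`.  CEX (`d₀ = 1`): `s`, `γ` with `Ex2 p s γ`.  `P = {p, s, ε = (s-1)/64, A, c0}`: `Sy P (dat τ)`.  LXC: `u₀'`, `ε₃`, `Cf`, `C`; LCB: `u₁`.  Given `u₀`: `U₀ = max` of `u₀`, `u₀'`, `u₁`, `1`; `K = 5`.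
LGO with this `Cf`, `U₀`.  The set in LO is contained in the union of a null set (LDM), `X l` (LGO), the sets of LX2, LX3 and LXC: for another `x` with the `k` of LO, LDM gives `V`, and as `Loc` holds for all `u` (LGO) and `x` is not in the set of LXC, both conditions of LCB hold; so `1/200 ≤ ∑_{u ∈ [U₀,V]} ..`, a contradiction with `U₁ = V`.  Add the four bounds.
Hypotheses: hGPG, hSY, hCEX, hLXC, hLCB, hLGO, hLX2, hLX3, hLDM. -/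
def StLOA : Prop := Pool.Agent.Helper68.EP.StLO

end Pool.Agent.Helper61.EPL
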